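import Mathlib

/-!
# A state-only height bound for equivalence of deterministic top-down tree transducers
-/

namespace Pool.Agent.Results.MP_460c01_lc.StateOnlyHeightBound

/-- Finite trees over the ranked alphabet with symbols `S` and rank function `rk`. -/
inductive Tree (S : Type) (rk : S → ℕ) : Type
  | node (s : S) (c : Fin (rk s) → Tree S rk) : Tree S rk

/-- Finite trees over the ranked alphabet `(S, rk)` whose leaves may also be labelled by
elements of `X`. -/
inductive Term (S : Type) (rk : S → ℕ) (X : Type) : Type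
  | leaf (x : X) : Term S rk X
  | node (s : S) (c : Fin (rk s) → Term S rk X) : Term S rk X

/-- The height of a tree: the number of nodes on a longest root-to-leaf path. -/
def Tree.height {S : Type} {rk : S → ℕ} : Tree S rk → ℕ
  | .node _ c => 1 + Finset.univ.sup fun i => (c i).height

/-- A finite family of possibly undefined values is defined exactly when all its members are. -/
def collect {n : ℕ} {α : Type} (f : Fin n → Option α) : Option (Fin n → α) :=
  if h : ∀ i, (f i).isSome then some (fun i => (f i).get (h i)) else none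

/-- Replace every leaf `x ∈ X` by the tree `E x`; the result is undefined if `E x` is undefined
for some `x` occurring in the term. -/
def Term.eval {S : Type} {rk : S → ℕ} {X : Type} (E : X → Option (Tree S rk)) :
    Term S rk X → Option (Tree S rk)
  | .leaf x => E x
  | .node s c => (collect fun i => (c i).eval E).map (Tree.node s)

/-- A deterministic top-down tree transducer from the ranked alphabet `(Sg, rs)` to the ranked
alphabet `(Dl, rd)`: finitely many states, an initial state, and at most one rule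
`q(a(x_1,...,x_k)) → z` for every state `q` and input symbol `a`; the leaf `(q', i)` of `z`
stands for `q'(x_i)`. -/
structure DT (Sg : Type) (rs : Sg → ℕ) (Dl : Type) (rd : Dl → ℕ) where
  /-- the states -/
  Q : Type
  /-- there are finitely many states -/
  fin : Fintype Q
  /-- the initial state -/
  q0 : Q
  /-- the rules -/
  rule : Q → (a : Sg) → Option (Term Dl rd (Q × Fin (rs a)))

variable {Sg : Type} {rs : Sg → ℕ} {Dl : Type} {rd : Dl → ℕ}

/-- `M.run s q` is the output tree obtained by rewriting `q(s)`, if there is one. -/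
def DT.run (M : DT Sg rs Dl rd) : Tree Sg rs → M.Q → Option (Tree Dl rd)
  | .node a c => fun q => (M.rule q a).bind fun z => z.eval fun p => M.run (c p.2) p.1

/-- The function (not necessarily everywhere defined) realized by `M`. -/
def DT.tau (M : DT Sg rs Dl rd) (s : Tree Sg rs) : Option (Tree Dl rd) := M.run s M.q0

/-- The number of states. -/
def DT.states (M : DT Sg rs Dl rd) : ℕ := @Fintype.card M.Q M.fin

/-! ### Auxiliary facts -/

section Terms

variable {S : Type} {rk : S → ℕ} {X Y : Type}

theorem collect_eq_some {n : ℕ} {α : Type} (f : Fin n → Option α) (g : Fin n → α) :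
    collect f = some g ↔ ∀ i, f i = some (g i) := by
  unfold collect
  constructor
  · intro h
    split_ifs at h with h1
    · intro i
      have := congrFun (Option.some.inj h) i
      rw [← this]
      simp
  · intro h
    have h1 : ∀ i, (f i).isSome := fun i => by rw [h i]; rfl
    rw [dif_pos h1]
    congr 1
    funext i
    simp [h i]

/-- Substitution of terms for the leaves. -/
def Term.bind (g : X → Term S rk Y) : Term S rk X → Term S rk Y
  | .leaf x => g x
  | .node s c => .node s fun i => (c i).bind g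

/-- A tree seen as a term. -/
def Tree.embed : Tree S rk → Term S rk X
  | .node s c => .node s fun i => (c i).embed

/-- The leaf `x` occurs in the term. -/
def Term.Occ (x : X) : Term S rk X → Prop
  | .leaf y => x = y
  | .node _ c => ∃ i, (c i).Occ x

theorem eval_bind (g : X → Term S rk Y) (E : Y → Option (Tree S rk)) (t : Term S rk X) :
    (t.bind g).eval E = t.eval fun x => (g x).eval E := by
  induction t with
  | leaf x => rfl
  | node s c ih =>
    simp only [Term.bind, Term.eval]
    congr 2
    funext i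
    exact ih i

theorem eval_embed (E : X → Option (Tree S rk)) (t : Tree S rk) :
    (t.embed : Term S rk X).eval E = some t := by
  induction t with
  | node s c ih =>
    simp only [Tree.embed, Term.eval]
    rw [(collect_eq_some _ c).2 ih]
    rfl

theorem eval_congr {E E' : X → Option (Tree S rk)} (t : Term S rk X)
    (h : ∀ x, t.Occ x → E x = E' x) : t.eval E = t.eval E' := by
  induction t with
  | leaf x => exact h x rfl
  | node s c ih =>
    simp only [Term.eval]
    congr 2
    funext i
    exact ih i fun x hx => h x ⟨i, hx⟩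

theorem occ_bind {g : X → Term S rk Y} {y : Y} (t : Term S rk X) (h : (t.bind g).Occ y) :
    ∃ x, t.Occ x ∧ (g x).Occ y := by
  induction t with
  | leaf x => exact ⟨x, rfl, h⟩
  | node s c ih =>
    obtain ⟨i, hi⟩ := h
    obtain ⟨x, hx, hy⟩ := ih i hi
    exact ⟨x, ⟨i, hx⟩, hy⟩

theorem eval_node_eq_some {E : X → Option (Tree S rk)} {s : S} {c : Fin (rk s) → Term S rk X}
    {τ : Tree S rk} (h : (Term.node s c).eval E = some τ) :
    ∃ g : Fin (rk s) → Tree S rk, (∀ i, (c i).eval E = some (g i)) ∧ τ = .node s g := by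
  simp only [Term.eval] at h
  rw [Option.map_eq_some_iff] at h
  obtain ⟨g, hg, hτ⟩ := h
  exact ⟨g, (collect_eq_some _ _).1 hg, hτ.symm⟩

theorem eval_isSome_iff (E : X → Option (Tree S rk)) (t : Term S rk X) :
    (t.eval E).isSome ↔ ∀ x, t.Occ x → (E x).isSome := by
  induction t with
  | leaf x =>
    constructor
    · intro h y hy
      rw [show y = x from hy]; exact h
    · intro h; exact h x rfl
  | node s c ih =>
    constructor
    · intro h x hx
      obtain ⟨τ, hτ⟩ := Option.isSome_iff_exists.1 h
      obtain ⟨g, hg, -⟩ := eval_node_eq_some hτ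
      obtain ⟨i, hi⟩ := hx
      exact (ih i).1 (by rw [hg i]; rfl) x hi
    · intro h
      have h1 : ∀ i, ((c i).eval E).isSome := fun i => (ih i).2 fun x hx => h x ⟨i, hx⟩
      have h2 : collect (fun i => (c i).eval E) = some fun i => ((c i).eval E).get (h1 i) :=
        (collect_eq_some _ _).2 fun i => by simp
      simp only [Term.eval, h2]
      rfl

theorem height_le_of_occ {E : X → Option (Tree S rk)} {x : X} {τx : Tree S rk}
    (hx : E x = some τx) (t : Term S rk X) : ∀ τ, t.Occ x → t.eval E = some τ →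
      τx.height ≤ τ.height := by
  induction t with
  | leaf y =>
    intro τ ho h
    rw [show x = y from ho] at hx
    have : E y = some τ := h
    rw [hx] at this
    rw [Option.some.inj this]
  | node s c ih =>
    intro τ ho h
    obtain ⟨g, hg, rfl⟩ := eval_node_eq_some h
    obtain ⟨i, hi⟩ := ho
    have := ih i (g i) hi (hg i)
    have h2 : (g i).height ≤ Finset.univ.sup fun i => (g i).height :=
      Finset.le_sup (f := fun i => (g i).height) (Finset.mem_univ i)
    simp only [Tree.height]
    omega

theorem height_lt_of_occ {E : X → Option (Tree S rk)} {x : X} {τx : Tree S rk}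
    (hx : E x = some τx) (s : S) (c : Fin (rk s) → Term S rk X) (τ : Tree S rk)
    (ho : (Term.node s c).Occ x) (h : (Term.node s c).eval E = some τ) :
    τx.height < τ.height := by
  obtain ⟨g, hg, rfl⟩ := eval_node_eq_some h
  obtain ⟨i, hi⟩ := ho
  have := height_le_of_occ hx (c i) (g i) hi (hg i)
  have h2 : (g i).height ≤ Finset.univ.sup fun i => (g i).height :=
    Finset.le_sup (f := fun i => (g i).height) (Finset.mem_univ i)
  simp only [Tree.height]
  omega

/-- A nontrivial term equation that holds on a nonempty set of valuations expresses one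
of the leaves by a term not containing it. -/
theorem peel {V : Set (X → Option (Tree S rk))} (hV : V.Nonempty) (w : Term S rk X) :
    ∀ w' : Term S rk X, (∀ E ∈ V, (w.eval E).isSome) → (∀ E ∈ V, w.eval E = w'.eval E) →
      w ≠ w' → ∃ (x : X) (r : Term S rk X), (w.Occ x ∨ w'.Occ x) ∧
        (∀ y, r.Occ y → w.Occ y ∨ w'.Occ y) ∧ ¬ r.Occ x ∧ ∀ E ∈ V, E x = r.eval E := by
  induction w with
  | leaf x =>
    intro w' hd he hne
    cases w' with
    | leaf y =>
      refine ⟨x, .leaf y, Or.inl rfl, fun z hz => Or.inr hz, ?_, fun E hE => he E hE⟩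
      intro h
      exact hne (by rw [show x = y from h])
    | node s c =>
      refine ⟨x, .node s c, Or.inl rfl, fun z hz => Or.inr hz, ?_, fun E hE => he E hE⟩
      intro ho
      obtain ⟨E, hE⟩ := hV
      obtain ⟨τ, hτ⟩ := Option.isSome_iff_exists.1 (hd E hE)
      have h1 : E x = some τ := hτ
      have h2 : (Term.node s c).eval E = some τ := by rw [← he E hE]; exact hτ
      exact lt_irrefl _ (height_lt_of_occ h1 s c τ ho h2)
  | node s c ih =>
    intro w' hd he hne
    cases w' with
    | leaf y =>
      refine ⟨y, .node s c, Or.inr rfl, fun z hz => Or.inl hz, ?_, fun E hE => (he E hE).symm⟩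
      intro ho
      obtain ⟨E, hE⟩ := hV
      obtain ⟨τ, hτ⟩ := Option.isSome_iff_exists.1 (hd E hE)
      have h1 : E y = some τ := by
        have := he E hE
        rw [hτ] at this
        exact this.symm
      exact lt_irrefl _ (height_lt_of_occ h1 s c τ ho hτ)
    | node s' c' =>
      have key : ∀ E ∈ V, ∃ g : Fin (rk s) → Tree S rk, (∀ i, (c i).eval E = some (g i)) ∧
          ∃ g' : Fin (rk s') → Tree S rk, (∀ i, (c' i).eval E = some (g' i)) ∧
            (Tree.node s g : Tree S rk) = .node s' g' := by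
        intro E hE
        obtain ⟨τ, hτ⟩ := Option.isSome_iff_exists.1 (hd E hE)
        obtain ⟨g, hg, h1⟩ := eval_node_eq_some hτ
        have h2 : (Term.node s' c').eval E = some τ := by rw [← he E hE]; exact hτ
        obtain ⟨g', hg', h3⟩ := eval_node_eq_some h2
        exact ⟨g, hg, g', hg', by rw [← h1, ← h3]⟩
      have hs : s = s' := by
        obtain ⟨E, hE⟩ := hV
        obtain ⟨g, -, g', -, h⟩ := key E hE
        exact (Tree.node.inj h).1
      subst hs
      have key2 : ∀ E ∈ V, ∀ i, (c i).eval E = (c' i).eval E ∧ ((c i).eval E).isSome := by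
        intro E hE i
        obtain ⟨g, hg, g', hg', h⟩ := key E hE
        have h2 : g = g' := eq_of_heq (Tree.node.inj h).2
        rw [hg i, hg' i, h2]
        exact ⟨rfl, rfl⟩
      have hex : ∃ i, c i ≠ c' i := by
        by_contra hcon
        push Not at hcon
        exact hne (by rw [funext hcon])
      obtain ⟨i, hi⟩ := hex
      obtain ⟨x, r, h1, h2, h3, h4⟩ := ih i (c' i) (fun E hE => (key2 E hE i).2)
        (fun E hE => (key2 E hE i).1) hi
      refine ⟨x, r, ?_, ?_, h3, h4⟩
      · rcases h1 with h1 | h1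
        · exact Or.inl ⟨i, h1⟩
        · exact Or.inr ⟨i, h1⟩
      · intro y hy
        rcases h2 y hy with h | h
        · exact Or.inl ⟨i, h⟩
        · exact Or.inr ⟨i, h⟩

/-- On the set `V` of valuations, all leaves in `D` are terms in the leaves in `T`. -/
def Gen (V : Set (X → Option (Tree S rk))) (D T : Finset X) : Prop :=
  T ⊆ D ∧ ∀ p ∈ D, ∃ t : Term S rk X, (∀ y, t.Occ y → y ∈ T) ∧ ∀ E ∈ V, E p = t.eval E

theorem gen_self (V : Set (X → Option (Tree S rk))) (D : Finset X) : Gen V D D := by
  refine ⟨Finset.Subset.refl _, fun p hp => ⟨.leaf p, ?_, fun E _ => rfl⟩⟩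
  intro y hy
  rw [show y = p from hy]; exact hp

theorem gen_mono {V V' : Set (X → Option (Tree S rk))} (h : V ⊆ V') {D T : Finset X}
    (hg : Gen V' D T) : Gen V D T := by
  refine ⟨hg.1, fun p hp => ?_⟩
  obtain ⟨t, h1, h2⟩ := hg.2 p hp
  exact ⟨t, h1, fun E hE => h2 E (h hE)⟩

theorem gen_drop {V V' : Set (X → Option (Tree S rk))} (hVV : V ⊆ V') (hV : V.Nonempty)
    {D : Finset X} (hD : ∀ E ∈ V', ∀ x, (E x).isSome ↔ x ∈ D) {T : Finset X} (hg : Gen V' D T)
    (t t' : Term S rk X) (he : ∀ E ∈ V, t.eval E = t'.eval E)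
    (hne : ∃ E ∈ V', t.eval E ≠ t'.eval E) : ∃ T' : Finset X, Gen V D T' ∧ T'.card < T.card := by
  classical
  obtain ⟨E', hE', hne⟩ := hne
  have hdef : ∀ (u : Term S rk X), ∀ E ∈ V', ((u.eval E).isSome ↔ ∀ x, u.Occ x → x ∈ D) := by
    intro u E hE
    rw [eval_isSome_iff]
    constructor
    · intro h x hx; exact (hD E hE x).1 (h x hx)
    · intro h x hx; exact (hD E hE x).2 (h x hx)
  obtain ⟨E₀, hE₀⟩ := hV
  have htt : (∀ x, t.Occ x → x ∈ D) ↔ (∀ x, t'.Occ x → x ∈ D) := by
    rw [← hdef t E₀ (hVV hE₀), ← hdef t' E₀ (hVV hE₀), he E₀ hE₀]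
  have htD : ∀ x, t.Occ x → x ∈ D := by
    by_contra hcon
    have h1 : ¬ (t.eval E').isSome := fun h => hcon ((hdef t E' hE').1 h)
    have h2 : ¬ (t'.eval E').isSome := fun h => hcon (htt.2 ((hdef t' E' hE').1 h))
    rw [Option.not_isSome_iff_eq_none] at h1 h2
    exact hne (by rw [h1, h2])
  have htD' := htt.1 htD
  choose θ hθ1 hθ2 using hg.2
  let θ' : X → Term S rk X := fun p => if h : p ∈ D then θ p h else .leaf p
  have hθ' : ∀ E ∈ V', (fun x => (θ' x).eval E) = E := by
    intro E hE
    funext x
    by_cases hx : x ∈ D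
    · simp only [θ', dif_pos hx]
      exact (hθ2 x hx E hE).symm
    · simp only [θ', dif_neg hx]
      rfl
  have hw : ∀ (u : Term S rk X), ∀ E ∈ V', (u.bind θ').eval E = u.eval E := by
    intro u E hE
    rw [eval_bind, hθ' E hE]
  have hocc : ∀ (u : Term S rk X), (∀ x, u.Occ x → x ∈ D) → ∀ y, (u.bind θ').Occ y → y ∈ T := by
    intro u hu y hy
    obtain ⟨x, hx, hy⟩ := occ_bind u hy
    have hxD := hu x hx
    simp only [θ', dif_pos hxD] at hy
    exact hθ1 x hxD y hy
  obtain ⟨x, r, h1, h2, h3, h4⟩ := peel ⟨E₀, hE₀⟩ (t.bind θ') (t'.bind θ')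
    (fun E hE => by rw [hw t E (hVV hE)]; exact (hdef t E (hVV hE)).2 htD)
    (fun E hE => by rw [hw t E (hVV hE), hw t' E (hVV hE)]; exact he E hE)
    (fun h => hne (by rw [← hw t E' hE', ← hw t' E' hE', h]))
  have hxT : x ∈ T := by
    rcases h1 with h1 | h1
    · exact hocc t htD x h1
    · exact hocc t' htD' x h1
  have hrT : ∀ y, r.Occ y → y ∈ T := by
    intro y hy
    rcases h2 y hy with h | h
    · exact hocc t htD y h
    · exact hocc t' htD' y h
  refine ⟨T.erase x, ⟨fun y hy => hg.1 (Finset.mem_of_mem_erase hy), fun p hp => ?_⟩,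
    Finset.card_erase_lt_of_mem hxT⟩
  refine ⟨(θ p hp).bind fun y => if y = x then r else .leaf y, ?_, ?_⟩
  · intro z hz1
    obtain ⟨y, hy, hz⟩ := occ_bind _ hz1
    have hyT := hθ1 p hp y hy
    rw [Finset.mem_erase]
    by_cases hyx : y = x
    · rw [if_pos hyx] at hz
      exact ⟨fun hzx => h3 (hzx ▸ hz), hrT z hz⟩
    · rw [if_neg hyx] at hz
      rw [show z = y from hz]
      exact ⟨hyx, hyT⟩
  · intro E hE
    rw [eval_bind]
    have : (fun y => (if y = x then r else Term.leaf y : Term S rk X).eval E) = E := by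
      funext y
      by_cases hyx : y = x
      · rw [if_pos hyx, hyx]; exact (h4 E hE).symm
      · rw [if_neg hyx]; rfl
    rw [this]
    exact hθ2 p hp E (hVV hE)

/-- The least size of a generating set of leaves. -/
noncomputable def rho (V : Set (X → Option (Tree S rk))) (D : Finset X) : ℕ :=
  sInf {m | ∃ T : Finset X, Gen V D T ∧ T.card = m}

theorem rho_spec (V : Set (X → Option (Tree S rk))) (D : Finset X) :
    ∃ T : Finset X, Gen V D T ∧ T.card = rho V D :=
  Nat.sInf_mem (s := {m | ∃ T : Finset X, Gen V D T ∧ T.card = m}) ⟨_, D, gen_self V D, rfl⟩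

theorem rho_le {V : Set (X → Option (Tree S rk))} {D T : Finset X} (h : Gen V D T) :
    rho V D ≤ T.card := Nat.sInf_le ⟨T, h, rfl⟩

theorem rho_mono {V V' : Set (X → Option (Tree S rk))} (h : V ⊆ V') (D : Finset X) :
    rho V D ≤ rho V' D := by
  obtain ⟨T, hT, hc⟩ := rho_spec V' D
  rw [← hc]
  exact rho_le (gen_mono h hT)

theorem rho_lt {V V' : Set (X → Option (Tree S rk))} (hVV : V ⊆ V') (hV : V.Nonempty)
    {D : Finset X} (hD : ∀ E ∈ V', ∀ x, (E x).isSome ↔ x ∈ D)
    (t t' : Term S rk X) (he : ∀ E ∈ V, t.eval E = t'.eval E)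
    (hne : ∃ E ∈ V', t.eval E ≠ t'.eval E) : rho V D < rho V' D := by
  obtain ⟨T, hT, hc⟩ := rho_spec V' D
  obtain ⟨T', hT', hlt⟩ := gen_drop hVV hV hD hT t t' he hne
  rw [← hc]
  exact lt_of_le_of_lt (rho_le hT') hlt

end Terms

/-! ### The two transducers together -/

section Two

variable (M₁ M₂ : DT Sg rs Dl rd)

/-- The joint set of states, together with one leaf that is never defined. -/
abbrev St : Type := Option (M₁.Q ⊕ M₂.Q)

/-- The joint right-hand sides. -/
def rhs (a : Sg) : St M₁ M₂ → Option (Term Dl rd (St M₁ M₂ × Fin (rs a)))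
  | none => none
  | some (.inl q) => (M₁.rule q a).map fun z => z.bind fun p => .leaf (some (.inl p.1), p.2)
  | some (.inr q) => (M₂.rule q a).map fun z => z.bind fun p => .leaf (some (.inr p.1), p.2)

/-- The joint state vector of an input tree. -/
def vec (s : Tree Sg rs) : St M₁ M₂ → Option (Tree Dl rd)
  | none => none
  | some (.inl q) => M₁.run s q
  | some (.inr q) => M₂.run s q

theorem vec_node (a : Sg) (c : Fin (rs a) → Tree Sg rs) (x : St M₁ M₂) :
    vec M₁ M₂ (.node a c) x =
      (rhs M₁ M₂ a x).bind fun z => z.eval fun p => vec M₁ M₂ (c p.2) p.1 := by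
  match x with
  | none => rfl
  | some (.inl q) =>
    simp only [vec, rhs, DT.run]
    cases M₁.rule q a with
    | none => rfl
    | some z =>
      simp only [Option.bind_some, Option.map_some]
      rw [eval_bind]
      rfl
  | some (.inr q) =>
    simp only [vec, rhs, DT.run]
    cases M₂.rule q a with
    | none => rfl
    | some z =>
      simp only [Option.bind_some, Option.map_some]
      rw [eval_bind]
      rfl

variable [Fintype (St M₁ M₂)]

open Classical in
/-- The set of leaves on which the state vector is defined. -/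
noncomputable def dom (s : Tree Sg rs) : Finset (St M₁ M₂) :=
  Finset.univ.filter fun x => (vec M₁ M₂ s x).isSome

theorem mem_dom (s : Tree Sg rs) (x : St M₁ M₂) :
    x ∈ dom M₁ M₂ s ↔ (vec M₁ M₂ s x).isSome := by
  simp [dom]

theorem dom_eq_iff (s : Tree Sg rs) (D : Finset (St M₁ M₂)) :
    dom M₁ M₂ s = D ↔ ∀ x, (vec M₁ M₂ s x).isSome ↔ x ∈ D := by
  constructor
  · rintro rfl x; exact (mem_dom M₁ M₂ s x).symm
  · intro h; ext x; rw [mem_dom, h]

theorem dom_congr (a : Sg) (u c : Fin (rs a) → Tree Sg rs)
    (h : ∀ i, dom M₁ M₂ (u i) = dom M₁ M₂ (c i)) :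
    dom M₁ M₂ (.node a u) = dom M₁ M₂ (.node a c) := by
  have key : ∀ i x, (vec M₁ M₂ (u i) x).isSome ↔ (vec M₁ M₂ (c i) x).isSome := by
    intro i x
    rw [← mem_dom, ← mem_dom, h i]
  rw [dom_eq_iff]
  intro x
  rw [mem_dom, vec_node, vec_node]
  cases rhs M₁ M₂ a x with
  | none => rfl
  | some z =>
    simp only [Option.bind_some]
    rw [eval_isSome_iff, eval_isSome_iff]
    constructor
    · intro h p hp; exact (key p.2 p.1).1 (h p hp)
    · intro h p hp; exact (key p.2 p.1).2 (h p hp)

/-- The state vectors with domain `D` of the input trees of height at most `h`. -/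
def Vh (h : ℕ) (D : Finset (St M₁ M₂)) : Set (St M₁ M₂ → Option (Tree Dl rd)) :=
  {E | ∃ s : Tree Sg rs, s.height ≤ h ∧ dom M₁ M₂ s = D ∧ E = vec M₁ M₂ s}

theorem Vh_mono {h h' : ℕ} (hh : h ≤ h') (D : Finset (St M₁ M₂)) :
    Vh M₁ M₂ h D ⊆ Vh M₁ M₂ h' D := by
  rintro E ⟨s, h1, h2, h3⟩
  exact ⟨s, h1.trans hh, h2, h3⟩

theorem height_node_le (a : Sg) (u : Fin (rs a) → Tree Sg rs) (h : ℕ)
    (hu : ∀ i, (u i).height ≤ h) : (Tree.node a u).height ≤ h + 1 := by
  have : (Finset.univ.sup fun i => (u i).height) ≤ h := Finset.sup_le fun i _ => hu i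
  simp only [Tree.height]
  omega

/-- If nothing changes from height `h` to height `h + 1`, then nothing ever changes. -/
theorem stable (h : ℕ)
    (hA : ∀ D, (Vh M₁ M₂ (h + 1) D).Nonempty → (Vh M₁ M₂ h D).Nonempty)
    (hB : ∀ D, (Vh M₁ M₂ h D).Nonempty → ∀ t t' : Term Dl rd (St M₁ M₂),
      (∀ E ∈ Vh M₁ M₂ h D, t.eval E = t'.eval E) → ∀ E ∈ Vh M₁ M₂ (h + 1) D,
        t.eval E = t'.eval E) (s : Tree Sg rs) :
    (Vh M₁ M₂ h (dom M₁ M₂ s)).Nonempty ∧ ∀ t t' : Term Dl rd (St M₁ M₂),
      (∀ E ∈ Vh M₁ M₂ h (dom M₁ M₂ s), t.eval E = t'.eval E) →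
        t.eval (vec M₁ M₂ s) = t'.eval (vec M₁ M₂ s) := by
  classical
  induction s with
  | node a c ih =>
    have hne : (Vh M₁ M₂ h (dom M₁ M₂ (.node a c))).Nonempty := by
      choose E hE using fun i => (ih i).1
      choose u hu1 hu2 hu3 using hE
      exact hA _ ⟨_, .node a u, height_node_le a u h hu1, dom_congr M₁ M₂ a u c hu2, rfl⟩
    refine ⟨hne, fun t t' he => ?_⟩
    have he' := hB _ hne t t' he
    have main : ∀ A : Finset (Fin (rs a)), ∀ u : Fin (rs a) → Tree Sg rs,
        (∀ i ∈ A, u i = c i) → (∀ i ∉ A, (u i).height ≤ h ∧ dom M₁ M₂ (u i) = dom M₁ M₂ (c i)) →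
          t.eval (vec M₁ M₂ (.node a u)) = t'.eval (vec M₁ M₂ (.node a u)) := by
      intro A
      induction A using Finset.induction_on with
      | empty =>
        intro u _ hu
        refine he' _ ⟨.node a u, height_node_le a u h fun i => (hu i (by simp)).1,
          dom_congr M₁ M₂ a u c fun i => (hu i (by simp)).2, rfl⟩
      | insert j A hj ihA =>
        intro u hu1 hu2
        let g : St M₁ M₂ × Fin (rs a) → Term Dl rd (St M₁ M₂) := fun p =>
          if p.2 = j then .leaf p.1 else
            match vec M₁ M₂ (u p.2) p.1 with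
            | some τ => τ.embed
            | none => .leaf none
        let G : St M₁ M₂ → Term Dl rd (St M₁ M₂) := fun x =>
          match rhs M₁ M₂ a x with
          | some z => z.bind g
          | none => .leaf none
        have hg : ∀ (y : Tree Sg rs) (p : St M₁ M₂ × Fin (rs a)),
            (g p).eval (vec M₁ M₂ y) = vec M₁ M₂ (Function.update u j y p.2) p.1 := by
          intro y p
          by_cases hp : p.2 = j
          · simp only [g, if_pos hp, Term.eval]
            rw [hp, Function.update_self]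
          · simp only [g, if_neg hp]
            rw [Function.update_of_ne hp]
            cases hv : vec M₁ M₂ (u p.2) p.1 with
            | none => rfl
            | some τ => exact eval_embed _ τ
        have hG : ∀ (y : Tree Sg rs) (v : Term Dl rd (St M₁ M₂)),
            (v.bind G).eval (vec M₁ M₂ y) =
              v.eval (vec M₁ M₂ (.node a (Function.update u j y))) := by
          intro y v
          rw [eval_bind]
          congr 1
          funext x
          rw [vec_node]
          simp only [G]
          cases rhs M₁ M₂ a x with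
          | none => rfl
          | some z =>
            simp only [Option.bind_some]
            rw [eval_bind]
            congr 1
            funext p
            exact hg y p
        have h1 := (ih j).2 (t.bind G) (t'.bind G) (by
          rintro E ⟨y, hy1, hy2, rfl⟩
          rw [hG, hG]
          apply ihA
          · intro i hi
            have hij : i ≠ j := fun h => hj (h ▸ hi)
            rw [Function.update_of_ne hij]
            exact hu1 i (Finset.mem_insert_of_mem hi)
          · intro i hi
            by_cases hij : i = j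
            · subst hij
              rw [Function.update_self]
              exact ⟨hy1, hy2⟩
            · rw [Function.update_of_ne hij]
              exact hu2 i (by simp [hij, hi]))
        rw [hG, hG] at h1
        have h2 : Function.update u j (c j) = u := by
          rw [← hu1 j (Finset.mem_insert_self j A)]
          exact Function.update_eq_self j u
        rw [h2] at h1
        exact h1
    exact main Finset.univ c (fun i _ => rfl) (fun i hi => absurd (Finset.mem_univ i) hi)

open Classical in
/-- The potential. -/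
noncomputable def pot (h : ℕ) (D : Finset (St M₁ M₂)) : ℕ :=
  if (Vh M₁ M₂ h D).Nonempty then 1 + rho (Vh M₁ M₂ h D) D else 0

theorem pot_mono {h h' : ℕ} (hh : h ≤ h') (D : Finset (St M₁ M₂)) :
    pot M₁ M₂ h D ≤ pot M₁ M₂ h' D := by
  unfold pot
  by_cases h1 : (Vh M₁ M₂ h D).Nonempty
  · have h2 : (Vh M₁ M₂ h' D).Nonempty := h1.mono (Vh_mono M₁ M₂ hh D)
    rw [if_pos h1, if_pos h2]
    have := rho_mono (Vh_mono M₁ M₂ hh D) D
    omega
  · rw [if_neg h1]; exact Nat.zero_le _

theorem pot_le (h : ℕ) (D : Finset (St M₁ M₂)) :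
    pot M₁ M₂ h D ≤ Fintype.card (St M₁ M₂) + 1 := by
  unfold pot
  split_ifs
  · have h1 := rho_le (gen_self (Vh M₁ M₂ h D) D)
    have h2 := Finset.card_le_univ D
    omega
  · exact Nat.zero_le _

theorem exists_stable : ∃ h ≤ 2 ^ Fintype.card (St M₁ M₂) * (Fintype.card (St M₁ M₂) + 1),
    ∀ D, pot M₁ M₂ h D = pot M₁ M₂ (h + 1) D := by
  classical
  set B := 2 ^ Fintype.card (St M₁ M₂) * (Fintype.card (St M₁ M₂) + 1) with hB
  have hle : ∀ h, ∑ D : Finset (St M₁ M₂), pot M₁ M₂ h D ≤ B := by
    intro h
    calc ∑ D : Finset (St M₁ M₂), pot M₁ M₂ h D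
        ≤ ∑ _D : Finset (St M₁ M₂), (Fintype.card (St M₁ M₂) + 1) :=
          Finset.sum_le_sum fun D _ => pot_le M₁ M₂ h D
      _ = B := by
          rw [Finset.sum_const, Finset.card_univ, Fintype.card_finset, smul_eq_mul]
  by_contra hcon
  push Not at hcon
  have hlt : ∀ h ≤ B, ∑ D : Finset (St M₁ M₂), pot M₁ M₂ h D <
      ∑ D : Finset (St M₁ M₂), pot M₁ M₂ (h + 1) D := by
    intro h hh
    obtain ⟨D, hD⟩ := hcon h hh
    exact Finset.sum_lt_sum (fun D _ => pot_mono M₁ M₂ (Nat.le_succ h) D)
      ⟨D, Finset.mem_univ D, lt_of_le_of_ne (pot_mono M₁ M₂ (Nat.le_succ h) D) hD⟩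
  have hge : ∀ h ≤ B + 1, h ≤ ∑ D : Finset (St M₁ M₂), pot M₁ M₂ h D := by
    intro h
    induction h with
    | zero => intro _; exact Nat.zero_le _
    | succ h ih =>
      intro hh
      have h1 := ih (by omega)
      have h2 := hlt h (by omega)
      omega
  have h1 := hge (B + 1) le_rfl
  have h2 := hle (B + 1)
  omega

theorem agree_of_agree_low
    (hag : ∀ s : Tree Sg rs,
      s.height ≤ 2 ^ Fintype.card (St M₁ M₂) * (Fintype.card (St M₁ M₂) + 1) →
        M₁.tau s = M₂.tau s) (s : Tree Sg rs) : M₁.tau s = M₂.tau s := by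
  obtain ⟨h, hh, hpot⟩ := exists_stable M₁ M₂
  have hA : ∀ D, (Vh M₁ M₂ (h + 1) D).Nonempty → (Vh M₁ M₂ h D).Nonempty := by
    intro D hD
    by_contra hcon
    have := hpot D
    unfold pot at this
    rw [if_neg hcon, if_pos hD] at this
    omega
  have hB : ∀ D, (Vh M₁ M₂ h D).Nonempty → ∀ t t' : Term Dl rd (St M₁ M₂),
      (∀ E ∈ Vh M₁ M₂ h D, t.eval E = t'.eval E) → ∀ E ∈ Vh M₁ M₂ (h + 1) D,
        t.eval E = t'.eval E := by
    intro D hD t t' he
    by_contra hcon
    push Not at hcon
    have h1 := rho_lt (Vh_mono M₁ M₂ (Nat.le_succ h) D) hD (D := D) (by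
      rintro E ⟨y, -, hy, rfl⟩
      exact (dom_eq_iff M₁ M₂ y D).1 hy) t t' he hcon
    have h2 := hpot D
    unfold pot at h2
    rw [if_pos hD, if_pos (hD.mono (Vh_mono M₁ M₂ (Nat.le_succ h) D))] at h2
    simp only [Nat.succ_eq_add_one] at h1
    omega
  have h3 := (stable M₁ M₂ h hA hB s).2 (.leaf (some (.inl M₁.q0))) (.leaf (some (.inr M₂.q0))) (by
    rintro E ⟨y, hy, -, rfl⟩
    exact hag y (hy.trans hh))
  exact h3

end Two

/-- **Answer to Q1: yes.** There is a function `H` of the numbers of states only (namely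
`H n₁ n₂ = 2 ^ (n₁ + n₂ + 1) * (n₁ + n₂ + 2)`) such that any two deterministic top-down tree
transducers with `n₁` and `n₂` states over the same alphabets, with rules of any size, realize the
same function as soon as they agree on all input trees of height at most `H n₁ n₂`. -/
theorem result : ∃ H : ℕ → ℕ → ℕ,
    (∀ n₁ n₂, H n₁ n₂ = 2 ^ (n₁ + n₂ + 1) * (n₁ + n₂ + 2)) ∧
    ∀ (Sg : Type) (rs : Sg → ℕ) (Dl : Type) (rd : Dl → ℕ) (M₁ M₂ : DT Sg rs Dl rd),
      (∀ s : Tree Sg rs, s.height ≤ H M₁.states M₂.states → M₁.tau s = M₂.tau s) →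
        ∀ s : Tree Sg rs, M₁.tau s = M₂.tau s := by
  refine ⟨fun n₁ n₂ => 2 ^ (n₁ + n₂ + 1) * (n₁ + n₂ + 2), fun _ _ => rfl, ?_⟩
  intro Sg rs Dl rd M₁ M₂ hag s
  let := M₁.fin
  let := M₂.fin
  have hc : Fintype.card (St M₁ M₂) = M₁.states + M₂.states + 1 := by
    simp only [St, Fintype.card_option, Fintype.card_sum, DT.states]
  apply agree_of_agree_low M₁ M₂
  intro s hs
  apply hag
  rw [hc] at hs
  exact hs

end Pool.Agent.Results.MP_460c01_lc.StateOnlyHeightBound
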